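import Mathlib
import Pool.Agent.Q106.HypoUD

/-!
# MP_4402ee_co, Q1: a hypo-UD graph with a cut-vertex

The graph has 19 vertices and domination number 5. It consists of two copies of a graph on ten
vertices which share the vertex 18.
-/

set_option autoImplicit false

namespace Pool.Agent.Results.MP_4402ee_co.CutVertex

open Q106.HypoUD

/-- `v` is a cut-vertex of `G`: the graph `G - v` has more components than `G`. -/
def IsCutVertex {V : Type} (G : SimpleGraph V) (v : V) : Prop :=
  Nat.card G.ConnectedComponent < Nat.card (del G v).ConnectedComponent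

/-- The neighbourhoods, as bit masks. -/
def nb : Fin 19 → ℕ :=
  ![262484, 164, 262275, 262576, 105, 26, 401, 334, 262345, 436224, 83968, 329216, 483328, 53760,
    13312, 205312, 171008, 365056, 137997]

/-- The example. -/
def G : SimpleGraph (Fin 19) where
  Adj a b := (nb a).testBit b.1 = true
  symm := ⟨by decide +kernel⟩
  loopless := ⟨by decide +kernel⟩

instance : DecidableRel G.Adj := fun a b => by unfold G; infer_instance

/-- The `γ`-set of `G - v`. -/
def E : Fin 19 → Finset (Fin 19) :=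
  ![{3, 7, 13, 16}, {0, 3, 13, 16}, {5, 8, 13, 16}, {0, 1, 13, 16}, {1, 8, 13, 16},
    {0, 7, 13, 16}, {2, 3, 13, 16}, {0, 5, 13, 16}, {2, 4, 13, 16}, {4, 7, 12, 16},
    {4, 7, 9, 12}, {4, 7, 14, 17}, {4, 7, 9, 10}, {4, 7, 10, 17}, {4, 7, 9, 16},
    {4, 7, 11, 12}, {4, 7, 9, 14}, {4, 7, 11, 13}, {4, 7, 13, 16}]

/-- The bit masks of the sets `E v`. -/
def em : Fin 19 → ℕ :=
  ![73864, 73737, 74016, 73731, 73986, 73857, 73740, 73761, 73748, 69776, 4752, 147600, 1680,
    132240, 66192, 6288, 17040, 10384, 73872]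

/-- The closed neighbourhoods and the singletons, as bit masks. -/
def L : List (ℕ × ℕ) := (List.finRange 19).map (fun i => (nb i ||| 2 ^ i.1, 2 ^ i.1))

/-- The table of the sets `E v`. -/
def T : List (ℕ × ℕ) := (List.finRange 19).map (fun i => (2 ^ i.1, em i))

/-- The check for a union of closed neighbourhoods with mask `c` of a set with mask `m`. -/
def chk (c m : ℕ) : Bool :=
  let U := 524287 ^^^ c
  (U != 0) && ((U &&& (U - 1) != 0) || T.all (fun p => (p.1 != U) || (p.2 == m)))

theorem check_all : (L.all fun a => L.all fun b => L.all fun c => L.all fun d =>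
    chk (a.1 ||| b.1 ||| c.1 ||| d.1) (a.2 ||| b.2 ||| c.2 ||| d.2)) = true := by
  decide +kernel

theorem E_spec : ∀ v : Fin 19, v ∉ E v ∧ (E v).card = 4 ∧
    (∀ w, w ≠ v → w ∈ E v ∨ ∃ u ∈ E v, G.Adj w u) ∧
    ∀ x : Fin 19, x ∈ E v ↔ (em v).testBit x.1 = true := by decide +kernel

theorem nb_lt : ∀ a : Fin 19, nb a < 2 ^ 19 ∧ 2 ^ a.1 < 2 ^ 19 := by decide +kernel

theorem mem_L (a : Fin 19) : (nb a ||| 2 ^ a.1, 2 ^ a.1) ∈ L :=
  List.mem_map.2 ⟨a, List.mem_finRange a, rfl⟩

theorem mem_T (v : Fin 19) : (2 ^ v.1, em v) ∈ T :=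
  List.mem_map.2 ⟨v, List.mem_finRange v, rfl⟩

theorem chk_four (a b c d : Fin 19) :
    chk ((nb a ||| 2 ^ a.1) ||| (nb b ||| 2 ^ b.1) ||| (nb c ||| 2 ^ c.1) ||| (nb d ||| 2 ^ d.1))
      (2 ^ a.1 ||| 2 ^ b.1 ||| 2 ^ c.1 ||| 2 ^ d.1) = true := by
  have h1 := List.all_eq_true.1 check_all _ (mem_L a)
  have h2 := List.all_eq_true.1 h1 _ (mem_L b)
  have h3 := List.all_eq_true.1 h2 _ (mem_L c)
  exact List.all_eq_true.1 h3 _ (mem_L d)

/-- A set of at most four vertices dominating `G - v` is `E v`. -/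
theorem unique_four (v a b c d : Fin 19)
    (h : ∀ w : Fin 19, w ≠ v → w ∈ ({a, b, c, d} : Finset (Fin 19)) ∨
      ∃ u ∈ ({a, b, c, d} : Finset (Fin 19)), G.Adj w u) :
    ({a, b, c, d} : Finset (Fin 19)) = E v := by
  have hc := chk_four a b c d
  generalize hC : (nb a ||| 2 ^ a.1) ||| (nb b ||| 2 ^ b.1) ||| (nb c ||| 2 ^ c.1) |||
    (nb d ||| 2 ^ d.1) = C at hc
  generalize hM : 2 ^ a.1 ||| 2 ^ b.1 ||| 2 ^ c.1 ||| 2 ^ d.1 = M at hc
  have hbit : ∀ w : Fin 19, w ≠ v → C.testBit w.1 = true := by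
    intro w hw
    rw [← hC]
    simp only [Nat.testBit_or, Bool.or_eq_true, Nat.testBit_two_pow, decide_eq_true_eq]
    rcases h w hw with h1 | ⟨u, hu, hadj⟩
    · simp only [Finset.mem_insert, Finset.mem_singleton] at h1
      rcases h1 with rfl | rfl | rfl | rfl <;> simp
    · have hadj' : (nb u).testBit w.1 = true := G.symm.symm _ _ hadj
      simp only [Finset.mem_insert, Finset.mem_singleton] at hu
      rcases hu with rfl | rfl | rfl | rfl <;> simp [hadj']
  have hClt : C < 2 ^ 19 := by
    rw [← hC]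
    refine Nat.or_lt_two_pow (Nat.or_lt_two_pow (Nat.or_lt_two_pow ?_ ?_) ?_) ?_ <;>
      exact Nat.or_lt_two_pow (nb_lt _).1 (nb_lt _).2
  have hU : 524287 ^^^ C = 0 ∨ 524287 ^^^ C = 2 ^ v.1 := by
    have hfull : (524287 : ℕ) = 2 ^ 19 - 1 := by norm_num
    by_cases hv : C.testBit v.1 = true
    · left
      apply Nat.eq_of_testBit_eq
      intro i
      rw [Nat.testBit_xor, hfull, Nat.testBit_two_pow_sub_one, Nat.zero_testBit]
      by_cases hi : i < 19
      · have : C.testBit i = true := by
          by_cases hiv : (⟨i, hi⟩ : Fin 19) = v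
          · rw [← hiv] at hv; exact hv
          · exact hbit ⟨i, hi⟩ hiv
        simp [hi, this]
      · have : C.testBit i = false := Nat.testBit_lt_two_pow
          (lt_of_lt_of_le hClt (Nat.pow_le_pow_right (by norm_num) (by omega)))
        simp [hi, this]
    · right
      apply Nat.eq_of_testBit_eq
      intro i
      rw [Nat.testBit_xor, hfull, Nat.testBit_two_pow_sub_one, Nat.testBit_two_pow]
      by_cases hi : i < 19
      · by_cases hiv : (⟨i, hi⟩ : Fin 19) = v
        · have h1 : v.1 = i := by rw [← hiv]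
          have h2 : C.testBit i = false := by rw [← h1]; simpa using hv
          simp [hi, h1, h2]
        · have h1 : ¬ v.1 = i := fun e => hiv (Fin.ext e.symm)
          have h2 := hbit ⟨i, hi⟩ hiv
          simp only at h2
          simp [hi, h1, h2]
      · have h2 : C.testBit i = false := Nat.testBit_lt_two_pow
          (lt_of_lt_of_le hClt (Nat.pow_le_pow_right (by norm_num) (by omega)))
        have h1 : ¬ v.1 = i := by have := v.2; omega
        simp [hi, h1, h2]
  unfold chk at hc
  simp only [Bool.and_eq_true, Bool.or_eq_true, bne_iff_ne, ne_eq, beq_iff_eq,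
    List.all_eq_true] at hc
  have hU2 : 524287 ^^^ C = 2 ^ v.1 := by
    rcases hU with h0 | h0
    · exact absurd h0 hc.1
    · exact h0
  have hM2 : em v = M := by
    rcases hc.2 with h1 | h1
    · exfalso
      apply h1
      rw [hU2]
      rw [Nat.two_pow_and, Nat.testBit_two_pow_sub_one]
      simp
    · rcases h1 _ (mem_T v) with h2 | h2
      · exact absurd hU2.symm h2
      · exact h2
  ext x
  rw [(E_spec v).2.2.2 x, hM2, ← hM]
  simp only [Nat.testBit_or, Bool.or_eq_true, Nat.testBit_two_pow, decide_eq_true_eq,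
    Finset.mem_insert, Finset.mem_singleton, Fin.ext_iff]
  constructor
  · rintro (h | h | h | h) <;> simp [h]
  · rintro (((h | h) | h) | h) <;> simp [h]

theorem unique_del (v : Fin 19) (D : Finset (Fin 19))
    (h : ∀ w, w ≠ v → w ∈ D ∨ ∃ u ∈ D, G.Adj w u) (hc : D.card ≤ 4) : D = E v := by
  have h0 : D.Nonempty := by
    obtain ⟨w, hw⟩ := exists_ne v
    rcases h w hw with h1 | ⟨u, hu, _⟩
    · exact ⟨w, h1⟩
    · exact ⟨u, hu⟩
  obtain ⟨a, b, c, d, rfl⟩ := exists_four D h0 hc
  exact unique_four v a b c d h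

theorem five_le (D : Finset (Fin 19)) (hD : IsDom G D) : 5 ≤ D.card := by
  by_contra hlt
  have h1 := unique_del 0 D (fun w _ => hD w) (by omega)
  have h2 := unique_del 1 D (fun w _ => hD w) (by omega)
  have h3 : E 0 ≠ E 1 := by decide +kernel
  exact h3 (h1.symm.trans h2)

theorem hypoUD : IsHypoUD G := by
  refine ⟨⟨{0, 1, 3, 13, 16}, {0, 1, 4, 13, 16}, by decide +kernel, ⟨?_, ?_⟩, ⟨?_, ?_⟩⟩,
    fun v => ?_⟩
  · unfold IsDom; decide +kernel
  · intro D hD
    refine le_trans ?_ (five_le D hD)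
    decide +kernel
  · unfold IsDom; decide +kernel
  · intro D hD
    refine le_trans ?_ (five_le D hD)
    decide +kernel
  · obtain ⟨h1, h2, h3, _⟩ := E_spec v
    exact unique_gammaSet G v (E v) h1 h3 (fun D _ hD hc => unique_del v D hD (by omega))

theorem connected : G.Connected := by
  have key : ∀ k : ℕ, ∀ v : Fin 19, v.1 = k → G.Reachable v 18 := by
    have hstep : ∀ v : Fin 19, G.Adj v 18 ∨ v = 18 ∨ ∃ u : Fin 19, G.Adj v u ∧ G.Adj u 18 := by
      decide +kernel
    intro k v _
    rcases hstep v with h | h | ⟨u, h1, h2⟩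
    · exact h.reachable
    · rw [h]
    · exact h1.reachable.trans h2.reachable
  refine SimpleGraph.Connected.mk ?_
  intro u v
  exact (key _ u rfl).trans (key _ v rfl).symm

theorem not_preconnected : ¬ (del G 18).Preconnected := by
  intro h
  obtain ⟨w⟩ := h ⟨0, by decide⟩ ⟨9, by decide⟩
  have hadj : ∀ x y : Fin 19, x ≠ 18 → y ≠ 18 → G.Adj x y → (x.1 < 9 → y.1 < 9) := by
    decide +kernel
  have key : ∀ (x y : {w : Fin 19 // w ≠ 18}), (del G 18).Walk x y → x.1.1 < 9 → y.1.1 < 9 := by
    intro x y w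
    induction w with
    | nil => exact fun h => h
    | cons ha _ ih =>
      rename_i a b c _
      exact fun h => ih (hadj a.1 b.1 a.2 b.2 ha h)
  have := key _ _ w (by decide)
  revert this
  decide

theorem cutVertex : IsCutVertex G 18 := by
  unfold IsCutVertex
  have h1 : Nat.card G.ConnectedComponent = 1 := by
    rw [Nat.card_eq_one_iff_unique]
    have := connected.preconnected.subsingleton_connectedComponent
    exact ⟨this, ⟨G.connectedComponentMk 0⟩⟩
  rw [h1]
  by_contra hle
  rw [not_lt] at hle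
  apply not_preconnected
  intro u v
  have hfin : Finite (del G 18).ConnectedComponent := inferInstance
  have hsub : Subsingleton (del G 18).ConnectedComponent :=
    Finite.card_le_one_iff_subsingleton.1 hle
  exact SimpleGraph.ConnectedComponent.exact (Subsingleton.elim _ _)

/-- There is a connected hypo-UD graph, with 19 vertices and domination number 5, which has a
cut-vertex. -/
theorem result : ∃ (G : SimpleGraph (Fin 19)) (v : Fin 19), G.Connected ∧ IsHypoUD G ∧
    IsCutVertex G v := ⟨G, 18, connected, hypoUD, cutVertex⟩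

end Pool.Agent.Results.MP_4402ee_co.CutVertex
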